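import Pool.Agent.Run7.h317.CV.X

/-!
# MP_528be1_nt: the dimensions of the spaces of cyclotomic multiple zeta values of every level

`Z N w` is the space spanned by the cyclotomic multiple zeta values of level `N` and weight `w`, and
`r` is the dimension of `Z N 1`, the space spanned by the logarithms of the numbers `1 - z`, `z ^ N = 1`,
`z ≠ 1`. For all `N ≥ 1` and `1 ≤ a ≤ b` the sum of the spaces `Z N a, …, Z N b` has dimension at least
`r + (a - 1) ⌊r² / 4⌋ + (b - a) ⌊(r + 1)² / 4⌋`. For `N ≥ 3` one has `r ≥ ω(N) + 1`. In particular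
`dim Z 3 w ≥ w + 1` and `dim Z 6 w ≥ 2 w + 1`; the multiple Clausen values of weight `w` are in `Z 6 w`.

Proof. Rational independence is a consequence of independence over the algebraic numbers. Let `V` be
the span over the algebraic numbers of a basis of `Z N 1`; by Baker's theorem `dim V = r`, and
`dim (ℚ̄ + V) = r + 1`. The product of two values of weights `u`, `v` is a combination of values of
weight `u + v` (quasi-shuffle product), so the sum of the spaces contains a basis of
`V ^ a (ℚ̄ + V) ^ (b - a)`. For every finite-dimensional space `X` of complex numbers and every space `W`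
of linear forms in `1` and logarithms with `dim W ≤ 2 dim X + 1` one has
`dim (X W) ≥ dim X + ⌊(dim W)² / 4⌋`: this follows from the product inequality of the starting files
(`Pool.Agent.W254.HP`, a consequence of the subspace form of the linear subgroup theorem) and from
`Pool.Agent.W256.Growth`.
-/

set_option autoImplicit false

namespace Pool.Agent.Results.MP_528be1_nt.AllLevels

open Filter Topology

/-- The truncated nested sum `∑ ∏_j z_j ^ ℓ_j / ℓ_j ^ a_j` over `M ≥ ℓ_1 > ℓ_2 > … > ℓ_n ≥ 1`, for the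
list `(a_1, z_1), …, (a_n, z_n)`. -/
noncomputable def trunc : List (ℕ × ℂ) → ℕ → ℂ
  | [], _ => 1
  | (a, z) :: l, M => ∑ m ∈ Finset.Icc 1 M, z ^ m / (m : ℂ) ^ a * trunc l (m - 1)

/-- The rational span of the cyclotomic multiple zeta values of level `N` and weight `w`: the limits of
the partial sums over `ℓ_1 ≤ M`, for positive integers `a_1, …, a_n` of sum `w` and `N`-th roots of unity
`z_1, …, z_n`, `n ≥ 1`, with `(a_1, z_1) ≠ (1, 1)`. -/
noncomputable def Z (N w : ℕ) : Submodule ℚ ℂ :=
  Submodule.span ℚ {x | ∃ (a : ℕ) (z : ℂ) (l : List (ℕ × ℂ)),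
    (∀ p ∈ (a, z) :: l, 1 ≤ p.1 ∧ p.2 ^ N = 1) ∧ (a, z) ≠ ((1, 1) : ℕ × ℂ) ∧
    (((a, z) :: l).map Prod.fst).sum = w ∧ Tendsto (trunc ((a, z) :: l)) atTop (𝓝 x)}

theorem trunc_eq (l : List (ℕ × ℂ)) (M : ℕ) : trunc l M = Pool.Agent.Run7.h317.CV.trunc l M := by
  induction l generalizing M with
  | nil => rfl
  | cons p l ih =>
    obtain ⟨a, z⟩ := p
    rw [trunc, Pool.Agent.Run7.h317.CV.trunc]
    exact Finset.sum_congr rfl fun m _ => by rw [ih]

theorem Z_eq (N w : ℕ) : Z N w = Pool.Agent.Run7.h317.CV.ZZ N w := by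
  have e : trunc = Pool.Agent.Run7.h317.CV.trunc := by
    funext l M
    exact trunc_eq l M
  unfold Z
  rw [e]
  rfl

/-- **Lower bounds for all levels and windows of weights.** -/
theorem result (N : ℕ) (hN : 1 ≤ N) :
    Module.Finite ℚ (Z N 1) ∧
    (3 ≤ N → N.primeFactors.card + 1 ≤ Module.finrank ℚ (Z N 1)) ∧
    ∀ a b : ℕ, 1 ≤ a → a ≤ b →
      ((Module.finrank ℚ (Z N 1) + (a - 1) * (Module.finrank ℚ (Z N 1) ^ 2 / 4) +
        (b - a) * ((Module.finrank ℚ (Z N 1) + 1) ^ 2 / 4) : ℕ) : Cardinal) ≤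
      Module.rank ℚ ↥(⨆ n ∈ Finset.Icc a b, Z N n) := by
  have e : Z N = Pool.Agent.Run7.h317.CV.ZZ N := funext (Z_eq N)
  have hN0 : N ≠ 0 := by omega
  have : NeZero N := ⟨hN0⟩
  rw [e]
  have hfin : Module.Finite ℚ (Pool.Agent.Run7.h317.CV.ZZ N 1) := inferInstance
  refine ⟨hfin, fun h3 => ?_, fun a b ha hab => ?_⟩
  · have h := Pool.Agent.Run7.h317.CV.rank_ZZ1 h3
    rw [← Module.finrank_eq_rank] at h
    exact_mod_cast h
  · set r := Module.finrank ℚ (Pool.Agent.Run7.h317.CV.ZZ N 1) with hr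
    rcases Nat.eq_zero_or_pos r with h0 | h1
    · rw [h0]
      simp
    · obtain ⟨c, rfl⟩ : ∃ c, a = c + 1 := ⟨a - 1, by omega⟩
      obtain ⟨k, rfl⟩ : ∃ k, b = c + 1 + k := ⟨b - (c + 1), by omega⟩
      have h := Pool.Agent.Run7.h317.CV.level_window hN0 r h1
        (by rw [hr, Module.finrank_eq_rank]) c k
      have e1 : c + 1 - 1 = c := by omega
      have e2 : c + 1 + k - (c + 1) = k := by omega
      rw [e1, e2]
      exact h

end Pool.Agent.Results.MP_528be1_nt.AllLevels
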