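import Pool.Agent.Run7.h317.CV.V

/-!
# MP_528be1_nt: sums of the spaces of alternating multiple zeta values

`Z N w` is the space spanned by the cyclotomic multiple zeta values of level `N` and weight `w`. For
`1 ≤ N ≤ M` the sum of the spaces `Z 2 N, …, Z 2 M` has dimension at least `M + 1 - ⌈N/2⌉`. In
particular every single space `Z 2 w` has dimension at least `⌊w/2⌋ + 1`.

Proof. The product of two values of weights `u`, `v` is a combination of values of weight `u + v`
(quasi-shuffle product, `CV/B`); `log 2` and `π²` have the weights one and two. As the quotient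
`π / log 2` is transcendental (Gelfond-Schneider, here from Baker's theorem), the `⌊N/2⌋ + 1` monomials
of weight `N` in `log 2` and `π²` are independent. As `log 2` is transcendental, some valuation ring of
the field of real numbers contains the rational numbers but not `log 2`; in its valuation one of the
monomials of weight `n` is larger than all combinations of the monomials of smaller weight (`CV/V`),
so that each further weight contributes at least one dimension. No relation between `π` and `log 2`
is excluded here beyond these two facts.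
-/

set_option autoImplicit false

namespace Pool.Agent.Results.MP_528be1_nt.AlternatingWindows

open Filter Topology

/-- The truncated nested sum `∑ ∏_j z_j ^ ℓ_j / ℓ_j ^ a_j` over `M ≥ ℓ_1 > ℓ_2 > … > ℓ_n ≥ 1`, for the
list `(a_1, z_1), …, (a_n, z_n)`. -/
noncomputable def trunc : List (ℕ × ℂ) → ℕ → ℂ
  | [], _ => 1
  | (a, z) :: l, M => ∑ m ∈ Finset.Icc 1 M, z ^ m / (m : ℂ) ^ a * trunc l (m - 1)

/-- The rational span of the cyclotomic multiple zeta values of level `N` and weight `w`: the limits of
the partial sums over `ℓ_1 ≤ M`, for positive integers `a_1, …, a_n` of sum `w` and `N`-th roots of unity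
`z_1, …, z_n`, `n ≥ 1`, with `(a_1, z_1) ≠ (1, 1)`. -/
noncomputable def Z (N w : ℕ) : Submodule ℚ ℂ :=
  Submodule.span ℚ {x | ∃ (a : ℕ) (z : ℂ) (l : List (ℕ × ℂ)),
    (∀ p ∈ (a, z) :: l, 1 ≤ p.1 ∧ p.2 ^ N = 1) ∧ (a, z) ≠ ((1, 1) : ℕ × ℂ) ∧
    (((a, z) :: l).map Prod.fst).sum = w ∧ Tendsto (trunc ((a, z) :: l)) atTop (𝓝 x)}

theorem trunc_eq (l : List (ℕ × ℂ)) (M : ℕ) : trunc l M = Pool.Agent.Run7.h317.CV.trunc l M := by
  induction l generalizing M with
  | nil => rfl
  | cons p l ih =>
    obtain ⟨a, z⟩ := p
    rw [trunc, Pool.Agent.Run7.h317.CV.trunc]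
    exact Finset.sum_congr rfl fun m _ => by rw [ih]

theorem Z_eq (N w : ℕ) : Z N w = Pool.Agent.Run7.h317.CV.ZZ N w := by
  have e : trunc = Pool.Agent.Run7.h317.CV.trunc := by
    funext l M
    exact trunc_eq l M
  unfold Z
  rw [e]
  rfl

/-- **The sum of the spaces of alternating multiple zeta values of the weights `N, …, M` has dimension
at least `⌊N/2⌋ + 1 + (M - N)`.** -/
theorem result (N M : ℕ) (hN : 1 ≤ N) (hNM : N ≤ M) :
    ((N / 2 + 1 + (M - N) : ℕ) : Cardinal) ≤ Module.rank ℚ ↥(⨆ n ∈ Finset.Icc N M, Z 2 n) := by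
  have e : Z 2 = Pool.Agent.Run7.h317.CV.ZZ 2 := funext (Z_eq 2)
  rw [e]
  exact Pool.Agent.Run7.h317.CV.window_ZZ2 hN hNM

end Pool.Agent.Results.MP_528be1_nt.AlternatingWindows
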