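import Pool.Agent.Run7.h317.CV.F2

/-!
# MP_528be1_nt: sums of the spaces of multiple Clausen values

`C w` is the space spanned by the multiple Clausen values of weight `w`. The sum of the spaces
`C 1, …, C N` has dimension at least `⌊2N/3⌋ + ⌊2(N-1)/3⌋ + 1`; there are similar bounds for windows
of weights and for arbitrary finite sets of weights.

Proof. The product of two values of weights `u`, `v` is a combination of values of weight `u + v`
(shuffle product of power series, Abel's theorem and the Cauchy product, `CV/D`, `CV/D2`). The numbers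
`iπ` and `ζ(3)` have the weights one and three (`CV/E`). Hence the real part of the sum contains the
monomials in `π²` and `ζ(3)` of the given weights and the imaginary part `π` times such monomials; the
ranks of the spans of monomials are bounded by the linear independence of `1, π², ζ(3)`, by
`ζ(3) ∉ ℚ π⁴` and by the transcendence of `π` (`Pool.Agent.R317`, `Pool.Agent.W245`).
-/

set_option autoImplicit false

namespace Pool.Agent.Results.MP_528be1_nt.ClausenWindows

open Filter Topology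

/-- The truncated nested sum `∑ ∏_j z_j ^ ℓ_j / ℓ_j ^ a_j` over `M ≥ ℓ_1 > ℓ_2 > … > ℓ_n ≥ 1`, for the
list `(a_1, z_1), …, (a_n, z_n)`. -/
noncomputable def trunc : List (ℕ × ℂ) → ℕ → ℂ
  | [], _ => 1
  | (a, z) :: l, M => ∑ m ∈ Finset.Icc 1 M, z ^ m / (m : ℂ) ^ a * trunc l (m - 1)

/-- `x` is the multiple Clausen value `Li_{a_1, …, a_n}(ω, 1, …, 1)`, `ω = e^(πi/3)`, of the list
`a_1, …, a_n` (given as its first entry `a` and the list `s` of the others): the limit of the partial
sums over `ℓ_1 ≤ M`. -/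
def IsValue (a : ℕ) (s : List ℕ) (x : ℂ) : Prop :=
  Tendsto (trunc ((a, Complex.exp (Real.pi * Complex.I / 3)) :: s.map fun b => (b, (1 : ℂ))))
    atTop (𝓝 x)

/-- The rational span of the multiple Clausen values of weight `w`. -/
noncomputable def C (w : ℕ) : Submodule ℚ ℂ :=
  Submodule.span ℚ {x | ∃ (a : ℕ) (s : List ℕ), (∀ k ∈ a :: s, 1 ≤ k) ∧ (a :: s).sum = w ∧
    IsValue a s x}

theorem trunc_eq (l : List (ℕ × ℂ)) (M : ℕ) : trunc l M = Pool.Agent.Run7.h317.CV.trunc l M := by
  induction l generalizing M with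
  | nil => rfl
  | cons p l ih =>
    obtain ⟨a, z⟩ := p
    rw [trunc, Pool.Agent.Run7.h317.CV.trunc]
    exact Finset.sum_congr rfl fun m _ => by rw [ih]

theorem C_eq (w : ℕ) : C w = Pool.Agent.Run7.h317.CV.CC Pool.Agent.Run7.h317.CV.om w := by
  have e : trunc = Pool.Agent.Run7.h317.CV.trunc := by
    funext l M
    exact trunc_eq l M
  unfold C IsValue
  rw [e]
  rfl

/-- Lower bounds for the dimensions of the sums of the spaces `C n` of multiple Clausen values:
over all weights at most `N`; over the weights of a window `[N, M]`, `N ≥ 3`; over the elements of a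
finite set `W` of weights at least `3` with an element `M`. (Every value exists; this is the first
assertion.) -/
theorem result :
    (∀ (a : ℕ) (s : List ℕ), (∀ k ∈ a :: s, 1 ≤ k) → ∃ x, IsValue a s x) ∧
    (∀ N : ℕ, 1 ≤ N → ((2 * N / 3 + 2 * (N - 1) / 3 + 1 : ℕ) : Cardinal) ≤
      Module.rank ℚ ↥(⨆ n ∈ Finset.Icc 1 N, C n)) ∧
    (∀ N M : ℕ, 3 ≤ N → N ≤ M → ¬ (N = 3 ∧ M = 5) → ¬ (N = 4 ∧ M = 6) →
      ((min (M + 1 - N) (2 * M / 3 + 1 - (N + 2) / 3) +
        min (M + 1 - N) (2 * (M - 1) / 3 + 1 - (N + 1) / 3) : ℕ) : Cardinal) ≤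
      Module.rank ℚ ↥(⨆ n ∈ Finset.Icc N M, C n)) ∧
    (∀ (W : Finset ℕ) (M : ℕ), (∀ n ∈ W, 3 ≤ n) → M ∈ W →
      ((min W.card (2 * M / 3 + 1 - (M + 1) / 2) +
        min W.card (2 * (M - 1) / 3 + 1 - M / 2) : ℕ) : Cardinal) ≤
      Module.rank ℚ ↥(⨆ n ∈ W, C n)) := by
  have e : C = Pool.Agent.Run7.h317.CV.CC Pool.Agent.Run7.h317.CV.om := funext C_eq
  refine ⟨fun a s h => ?_, fun N hN => ?_, fun N M h1 h2 h3 h4 => ?_, fun W M hW hM => ?_⟩
  · obtain ⟨x, hx⟩ := Pool.Agent.Run7.h317.CV.exists_lim a Pool.Agent.Run7.h317.CV.om _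
      (Pool.Agent.Run7.h317.CV.pos_val Pool.Agent.Run7.h317.CV.om_norm h)
      (fun h => Pool.Agent.Run7.h317.CV.om_ne (congrArg Prod.snd h))
    exact ⟨x, hx.congr fun M => (trunc_eq _ M).symm⟩
  · rw [e]
    exact Pool.Agent.Run7.h317.CV.sum_CC hN
  · rw [e]
    exact Pool.Agent.Run7.h317.CV.window_CC h1 h2 h3 h4
  · rw [e]
    exact Pool.Agent.Run7.h317.CV.anyset_CC hW hM

end Pool.Agent.Results.MP_528be1_nt.ClausenWindows
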