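import Mathlib
import Pool.Agent.Run7.h867.AM.Main

/-!
# Typical tuples of alternating multiple zeta values have no small polynomial relation

The values `Li_{a_1,...,a_n}(z_1,...,z_n)`, `z_j = ±1`, `(a_1,z_1) ≠ (1,1)`, of weight `w` are indexed by the
`4·3^{w-2}` elements of `gens w`.  For every finite set `S` of monomials in `N` variables, every `H ≥ 1` and
all weights `W_1, ..., W_N ≥ w ≥ 2`, the proportion of the `N`-tuples of indices of weights `W_1, ..., W_N`
whose values `v` satisfy a relation `P(v) = 0`, `P ≠ 0` an integer polynomial with monomials in `S` and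
coefficients at most `H` in absolute value, is at most `C(|S|,2)·(2 log_2(|S| H) + 1)·√(3/w)`; outside
these exceptional tuples, every monomial of such a `P` is at most `|S|·|P(v)|` in absolute value.
-/

set_option autoImplicit false

namespace Pool.Agent.Results.MP_528be1_nt.TypicalAlternatingValues

open Finset Filter Topology

/-- an index `((a_1, z_1), ..., (a_n, z_n))` -/
abbrev Index := List (ℕ × ℤ)

/-- the sum of `∏_j z_j ^ ℓ_j / ℓ_j ^ a_j` over `m > ℓ_1 > ... > ℓ_n ≥ 1` (it is `1` for `n = 0`) -/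
noncomputable def trunc : Index → ℕ → ℝ
  | [], _ => 1
  | x :: l, m => ∑ j ∈ Finset.Ico 1 m, (x.2 : ℝ) ^ j / (j : ℝ) ^ x.1 * trunc l j

/-- `Li_{a_1,...,a_n}(z_1,...,z_n)`, the limit of the truncated sums -/
noncomputable def val (l : Index) : ℝ := limUnder atTop (trunc l)

/-- the indices of the alternating multiple zeta values of weight `w`: `n ≥ 1`, `a_j ≥ 1`, `z_j = ±1`,
`(a_1, z_1) ≠ (1, 1)` and `a_1 + ... + a_n = w` -/
def gens (w : ℕ) : Set Index :=
  {l | l ≠ [] ∧ (∀ x ∈ l, 1 ≤ x.1 ∧ (x.2 = 1 ∨ x.2 = -1)) ∧ l.head? ≠ some (1, 1) ∧ (l.map Prod.fst).sum = w}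

/-- the tuples of indices of weights `W_1, ..., W_N` with values `v_1, ..., v_N` for which there is a nonzero
integer polynomial `P` with monomials in `S` and coefficients at most `H` in absolute value such that
`P(v) = 0`, or `|S|·|P(v)|` is smaller than the absolute value of a monomial of `P` at `v` -/
def exceptional {N : ℕ} (S : Finset (Fin N →₀ ℕ)) (H : ℕ) (W : Fin N → ℕ) : Set (Fin N → Index) :=
  {u | (∀ i, u i ∈ gens (W i)) ∧ ∃ P : MvPolynomial (Fin N) ℤ, P ≠ 0 ∧ P.support ⊆ S ∧
    (∀ α, |P.coeff α| ≤ H) ∧ (MvPolynomial.aeval (fun i => val (u i)) P = 0 ∨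
      ∃ α ∈ P.support, (#S : ℝ) * |MvPolynomial.aeval (fun i => val (u i)) P| < |∏ i, val (u i) ^ α i|)}

theorem trunc_same (l : Index) : ∀ m, trunc l m = Run7.h867.AM.trunc l m := by
  induction l with
  | nil => intro m; rfl
  | cons x l ih =>
    intro m
    rw [trunc, Run7.h867.AM.trunc]
    exact sum_congr rfl fun j _ => by rw [ih]

theorem val_same (l : Index) : val l = Run7.h867.AM.val l := by
  have : trunc l = Run7.h867.AM.trunc l := funext (trunc_same l)
  rw [val, Run7.h867.AM.val, this]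

theorem gens_same (w : ℕ) : gens w = Run7.h867.AM.gens w := rfl

/-- there are `4·3^{w-2}` indices of weight `w`, their values are well-defined and not `0`, and the number of
the exceptional tuples is small -/
theorem result :
    (∀ w : ℕ, 2 ≤ w → (gens w).ncard = 4 * 3 ^ (w - 2)) ∧
    (∀ w : ℕ, ∀ l ∈ gens w, Tendsto (trunc l) atTop (𝓝 (val l)) ∧ val l ≠ 0) ∧
    ∀ (N : ℕ) (S : Finset (Fin N →₀ ℕ)) (H w : ℕ) (W : Fin N → ℕ), S.Nonempty → 1 ≤ H → 2 ≤ w →
      (∀ i, w ≤ W i) →
      (exceptional S H W).Finite ∧ ((exceptional S H W).ncard : ℝ) ≤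
        ((#S).choose 2 : ℝ) * (2 * Real.logb 2 (#S * H) + 1) * √(3 / (w : ℝ)) *
          ∏ i, (4 * 3 ^ (W i - 2) : ℝ) := by
  classical
  have hgens : ∀ w, 2 ≤ w → gens w = (Run7.h867.AM.G (w - 2) : Set Index) := by
    intro w hw
    ext l
    rw [mem_coe, Run7.h867.AM.mem_G, gens_same, show w - 2 + 2 = w by omega]
  refine ⟨?_, ?_, ?_⟩
  · intro w hw
    rw [hgens w hw, Set.ncard_coe_finset, Run7.h867.AM.card_G]
  · intro w l hl
    have h1 : trunc l = Run7.h867.AM.trunc l := funext (trunc_same l)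
    rw [h1, val_same]
    refine ⟨Run7.h867.AM.tendsto_val hl, ?_⟩
    have h2 := Run7.h867.AM.abs_val hl
    obtain ⟨a, u, ha, hw⟩ := Run7.h867.AM.gens_word hl
    have h3 : 0 < Run7.h867.AM.V (Run7.h867.AM.wd 1 l) := by
      rw [hw]
      exact Run7.h867.AM.V_pos ha (by rw [← hw]; exact Run7.h867.AM.wd_good l 1)
    intro h
    rw [h, abs_zero] at h2
    linarith
  · intro N S H w W hS hH hw hW
    have hmain := Run7.h867.AM.main_count (fun i => W i - 2) w hw (fun i => by have := hW i; omega) S H hH hS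
    have hsub : exceptional S H W ⊆ (((Fintype.piFinset fun i => Run7.h867.AM.G (W i - 2)).filter fun u =>
        Run7.h867.AM.Bad S H u : Finset (Fin N → Index)) : Set (Fin N → Index)) := by
      intro u hu
      obtain ⟨hu1, P, hP0, hP, hc, hor⟩ := hu
      rw [mem_coe, mem_filter, Fintype.mem_piFinset]
      have hmem : ∀ i, u i ∈ Run7.h867.AM.G (W i - 2) := by
        intro i
        have := hu1 i
        rw [hgens (W i) (hw.trans (hW i)), mem_coe] at this
        exact this
      refine ⟨hmem, P, hP, hc, ?_⟩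
      have hval : (fun i => val (u i)) = fun i => Run7.h867.AM.val (u i) := funext fun i => val_same (u i)
      rw [hval] at hor
      rcases hor with h0 | ⟨α, hα, hlt⟩
      · obtain ⟨α, hα⟩ : P.support.Nonempty := MvPolynomial.support_nonempty.2 hP0
        refine ⟨α, hα, ?_⟩
        rw [h0, abs_zero, mul_zero]
        exact abs_pos.2 (prod_ne_zero_iff.2 fun i _ => pow_ne_zero _ (Run7.h867.AM.val_ne (hmem i)))
      · refine ⟨α, hα, ?_⟩
        simp only [val_same] at hlt
        exact hlt
    have hfin := (Finset.finite_toSet ((Fintype.piFinset fun i => Run7.h867.AM.G (W i - 2)).filter fun u =>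
        Run7.h867.AM.Bad S H u : Finset (Fin N → Index))).subset hsub
    refine ⟨hfin, ?_⟩
    have h1 := Set.ncard_le_ncard hsub (Finset.finite_toSet _)
    rw [Set.ncard_coe_finset] at h1
    calc ((exceptional S H W).ncard : ℝ) ≤ _ := Nat.cast_le.2 h1
      _ ≤ _ := hmain
      _ = _ := by
        have h2 : ∏ i, (#(Run7.h867.AM.G (W i - 2)) : ℝ) = ∏ i, (4 * 3 ^ (W i - 2) : ℝ) :=
          prod_congr rfl fun i _ => by rw [Run7.h867.AM.card_G]; push_cast; ring
        rw [h2]
        ring

end Pool.Agent.Results.MP_528be1_nt.TypicalAlternatingValues
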